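import Pool.Agent.W_448w7_h36.JaC

/-!
The pattern J: window 7, order two up to the energy 50.
-/

namespace Pool.Agent.GaussPoset.W7

open Cl Dd Sg

/-- the up-sets: code, `ℓ`, `M`, exponent, coefficient -/
def JaL : List (ℕ × ℕ × ℕ × ℕ × ℕ) := [(17179869183, 16, 18, 347, 0), (17146314751, 16, 17, 322, 0), (16106127359, 16, 17, 322, 0), (16072572927, 16, 16, 298, 0), (15032385535, 16, 17, 322, 0), (14998831103, 16, 16, 298, 0), (13958643711, 16, 16, 298, 0), (13925089279, 16, 15, 275, 0), (12884901887, 16, 17, 322, 0), (12851347455, 16, 16, 298, 0), (11811160063, 16, 16, 298, 0), (11777605631, 16, 15, 275, 0), (10737418239, 16, 16, 298, 0), (10703863807, 16, 15, 275, 0), (10468982783, 16, 15, 275, 0), (10435428351, 16, 14, 253, 0), (9663676415, 16, 15, 275, 0), (9630121983, 16, 14, 253, 0), (9395240959, 16, 14, 253, 0), (9361686527, 16, 13, 232, 0), (8589934591, 16, 17, 322, 0), (8556380159, 16, 16, 298, 0), (7516192767, 16, 16, 298, 0), (7482638335, 16, 15, 275, 0), (7449083903, 16,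 15, 275, 0), (7415529471, 16, 14, 253, 0), (7413432319, 16, 13, 232, 0), (6442450943, 16, 16, 298, 0), (6408896511, 16, 15, 275, 0), (6308233215, 16, 15, 275, 0), (6274678783, 16, 14, 253, 0), (5368709119, 16, 15, 275, 0), (5335154687, 16, 14, 253, 0), (5301600255, 16, 14, 253, 0), (5268045823, 16, 13, 232, 0), (5265948671, 16, 12, 212, 0), (5234491391, 16, 14, 253, 0), (5200936959, 16, 13, 232, 0), (5167382527, 16, 13, 232, 0), (5163188223, 16, 12, 212, 0), (5133828095, 16, 12, 212, 0), (5131730943, 16, 11, 193, 0), (5129633791, 16, 11, 193, 0), (5127536639, 16, 10, 175, 0), (5127274495, 16, 9, 158, 0), (5127241727, 16, 8, 142, 0), (4294967295, 16, 16, 298, 0), (4261412863, 16, 15, 275, 0), (3221225471, 16, 15, 275, 0), (3187671039, 16, 14, 253, 0), (3154116607, 16, 14, 253, 0), (3120562175, 16, 13, 232, 0), (3118465023, 16, 12, 212, 0), (2147483647, 16, 15, 275, 0), (2113929215, 16, 14, 253, 0), (2013265919, 16, 14, 253, 0), (1979711487, 16, 13, 232, 0), (1879048191, 16, 14, 253, 0),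 (1845493759, 16, 13, 232, 0), (1744830463, 16, 13, 232, 0), (1736441855, 16, 12, 212, 0), (1711276031, 16, 12, 212, 0), (1702887423, 16, 11, 193, 0), (1073741823, 15, 15, 275, 0), (1040187391, 15, 14, 253, 0), (1006632959, 15, 14, 253, 0), (973078527, 15, 13, 232, 0), (970981375, 15, 12, 212, 0), (939524095, 15, 14, 253, 0), (905969663, 15, 13, 232, 0), (872415231, 15, 13, 232, 0), (868220927, 15, 12, 212, 0), (838860799, 15, 12, 212, 0), (836763647, 15, 11, 193, 0), (834666495, 15, 11, 193, 0), (832569343, 15, 10, 175, 0), (832307199, 15, 9, 158, 0), (832274431, 15, 8, 142, 0), (805306367, 15, 14, 253, 0), (771751935, 15, 13, 232, 0), (738197503, 15, 13, 232, 0), (704643071, 15, 12, 212, 0), (702545919, 15, 11, 193, 0), (671088639, 15, 13, 232, 0), (662700031, 15, 12, 212, 0), (637534207, 15, 12, 212, 0), (629145599, 15, 11, 193, 0), (603979775, 15, 12, 212, 0), (599785471, 15, 11, 193, 0), (595591167, 15, 11, 193, 0), (591396863, 15, 10, 175, 0), (590872575, 15, 9, 158, 0), (570425343,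 15, 11, 193, 0), (568328191, 15, 10, 175, 0), (566231039, 15, 10, 175, 0), (564133887, 15, 9, 158, 0), (563871743, 15, 8, 142, 0), (563838975, 15, 7, 127, 0), (562036735, 15, 10, 175, 0), (559939583, 15, 9, 158, 0), (557842431, 15, 9, 158, 0), (557318143, 15, 8, 142, 0), (555745279, 15, 8, 142, 0), (555483135, 15, 7, 127, 0), (555450367, 15, 6, 113, 0), (555220991, 15, 7, 127, 0), (554958847, 15, 6, 113, 0), (554926079, 15, 5, 100, 0), (554893311, 15, 5, 100, 0), (554860543, 15, 4, 88, 0), (554852351, 15, 3, 77, 0), (554850303, 15, 2, 67, 0), (554849791, 15, 1, 58, 0)]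

theorem JaL_pol1 : polF1 34 (2 ^ 104) 18 Jaus 7 JaL = true := by
  decide +kernel

theorem JaL_pol2 : polF2 34 (2 ^ 104) 18 Jaus JaL = true := by
  decide +kernel

theorem JaL_pol : polC 34 (2 ^ 104) 18 Jaus 7 JaL = true :=
  polC_of_fast JaL_pol1 JaL_pol2

theorem Ja_low : lowC 34 18 7 50 (fun a => Jalv.getD a 0) Jaus 554849791 JaL = true := by
  decide +kernel

end Pool.Agent.GaussPoset.W7
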