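import Pool.Agent.W_448w7_h36.JaC

/-!
The pattern J: window 9, the up-sets which contain the last element, order two up to the energy 11.
-/

namespace Pool.Agent.GaussPoset.W7

open Cl Dd Sg

/-- the up-sets: code, `ℓ`, `M`, exponent, coefficient -/
def JaM : List (ℕ × ℕ × ℕ × ℕ × ℕ) := [(17179869183, 16, 18, 341, 0), (17146314751, 16, 17, 314, 0), (16106127359, 16, 17, 314, 0), (16072572927, 16, 16, 288, 0), (15032385535, 16, 17, 314, 0), (14998831103, 16, 16, 288, 0), (13958643711, 16, 16, 288, 0), (13925089279, 16, 15, 263, 0), (8589934591, 16, 17, 314, 0), (8556380159, 16, 16, 288, 0), (7516192767, 16, 16, 288, 0), (7482638335, 16, 15, 263, 0), (7449083903, 16, 15, 263, 0), (7415529471, 16, 14, 239, 0), (7413432319, 16, 13, 216, 0), (6442450943, 16, 16, 288, 0), (6408896511, 16, 15, 263, 0), (6308233215, 16, 15, 263, 0), (6274678783, 16, 14, 239, 0), (5368709119, 16, 15, 263, 0), (5335154687, 16, 14, 239, 0), (5301600255, 16, 14, 239, 0), (5268045823, 16, 13, 216,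 0), (5265948671, 16, 12, 194, 0), (5234491391, 16, 14, 239, 0), (5200936959, 16, 13, 216, 0), (5167382527, 16, 13, 216, 0), (5163188223, 16, 12, 194, 0), (5133828095, 16, 12, 194, 0), (5131730943, 16, 11, 173, 0), (5129633791, 16, 11, 173, 0), (5127536639, 16, 10, 153, 0), (5127274495, 16, 9, 134, 0)]

theorem JaM_pol1 : polF1 34 (2 ^ 104) 18 Jaus 9 JaM = true := by
  decide +kernel

theorem JaM_pol2 : polF2 34 (2 ^ 104) 18 Jaus JaM = true := by
  decide +kernel

theorem JaM_pol : polC 34 (2 ^ 104) 18 Jaus 9 JaM = true :=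
  polC_of_fast JaM_pol1 JaM_pol2

theorem Ja_num9 : ∀ x ∈ JaM, numC 34 18 9 11 (fun a => Jalv.getD a 0) x = true ∧
    x.2.2.2.2 = 0 := by decide +kernel

theorem Ja_all9 : ∀ J ∈ Jaus, Nat.land 5127241727 J = 5127241727 → J = 5127241727 ∨ ∃ x ∈ JaM, x.1 = J := by
  decide +kernel

end Pool.Agent.GaussPoset.W7
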