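import Pool.Agent.W_448w7_h36.JaC
import Pool.Agent.W_448w7_h36.NegA

/-!
The pattern J: the pole of the elements above the anchor, window 9, energy 2.
-/

namespace Pool.Agent.GaussPoset.W7

open Cl Dd Sg

theorem JaR_neg1 : negF1 34 (2 ^ 104) 18 Jaus 9 (5127241727, 16, 8, 107, 1) = true := by
  decide +kernel

theorem JaR_neg2 : negF2 34 (2 ^ 104) 18 Jaus (5127241727, 16, 8, 107, 1) = true := by
  decide +kernel

theorem JaR_neg : negC 34 (2 ^ 104) 18 Jaus 9 (5127241727, 16, 8, 107, 1) = true :=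
  negC_of_fast JaR_neg1 JaR_neg2

theorem JaR_nnum : numC 34 18 9 2 (fun a => Jalv.getD a 0) (5127241727, 16, 8, 107, 1) = true := by
  decide +kernel

theorem JaR_nmem : (5127241727 : ℕ) ∈ Jaus := by decide +kernel

theorem JaR_nsgn : sgn 16 8 9 = -1 := by
  decide +kernel

end Pool.Agent.GaussPoset.W7
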