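import Pool.Agent.W_448w7_h94.WiA
import Pool.Agent.W_448w7_h36.JaP
import Pool.Agent.W_448w7_h36.JaQ
import Pool.Agent.W_448w7_h36.JaR

/-!
The strip `La7` with elements of level 15, pattern J: local data at window 7 up to the energy 50
and the window 9 (MP_448cb3_co, S7, `j = 14`).
-/

namespace Pool.Agent.GaussPoset.W7

set_option linter.unusedSectionVars false
set_option synthInstance.maxSize 1000

open Polynomial Finset Cl Dd Wd Win Sg

universe u

variable {P : Type u} [Fintype P] [PartialOrder P] [DecidableEq P]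
variable {r : ℕ} {t : P} {lo hi : ℕ → ℕ} {e : ℕ → ℕ → P}

/-- four elements -/
def four (a b c d : P) (k : ℕ) : P := if k = 0 then a else if k = 1 then b else
  if k = 2 then c else d

lemma four_inj {a b c d : P} {K : ℕ} (hK : K ≤ 4) (h1 : a ≠ b) (h2 : a ≠ c) (h3 : b ≠ c)
    (h4 : K = 4 → a ≠ d ∧ b ≠ d ∧ c ≠ d) :
    ∀ i < K, ∀ j < K, four a b c d i = four a b c d j → i = j := by
  intro i hi j hj h
  have hi' : i = 0 ∨ i = 1 ∨ i = 2 ∨ (i = 3 ∧ K = 4) := by omega
  have hj' : j = 0 ∨ j = 1 ∨ j = 2 ∨ (j = 3 ∧ K = 4) := by omega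
  rcases hi' with rfl | rfl | rfl | ⟨rfl, hk⟩ <;> rcases hj' with rfl | rfl | rfl | ⟨rfl, hk'⟩ <;>
    simp only [four, one_ne_zero, if_true, if_false, OfNat.ofNat_ne_zero, OfNat.ofNat_ne_one,
      show (3 : ℕ) ≠ 2 by norm_num] at h
  · rfl
  · exact absurd h h1
  · exact absurd h h2
  · exact absurd h (h4 hk').1
  · exact absurd h.symm h1
  · rfl
  · exact absurd h h3
  · exact absurd h (h4 hk').2.1
  · exact absurd h.symm h2
  · exact absurd h.symm h3
  · rfl
  · exact absurd h (h4 hk').2.2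
  · exact absurd h.symm (h4 hk).1
  · exact absurd h.symm (h4 hk).2.1
  · exact absurd h.symm (h4 hk).2.2
  · rfl

section

variable (D : WordD 14 7 wa7 lo hi) (C : Cp.Comp 14 t lo hi e) (hgt : GoodTo P r 14)
  (ht : lev t = 0)

include D C hgt ht in
/-- the mask is determined by the element -/
lemma Mk_mask {z : P} {m m' : ℕ} (h : Mk e z m) (h' : Mk e z m') (hm : m < 2 ^ 30)
    (hm' : m' < 2 ^ 30) : m = m' := by
  refine Nat.eq_of_testBit_eq fun b => ?_
  by_cases hb : b < 30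
  · cases h1 : m.testBit b <;> cases h2 : m'.testBit b
    · rfl
    · exact absurd rfl (Mk.ne D C hgt ht h' h hb h2 h1)
    · exact absurd rfl (Mk.ne D C hgt ht h h' hb h1 h2)
    · rfl
  · rw [testBit_false hm (not_lt.mp hb), testBit_false hm' (not_lt.mp hb)]

/-- the enumeration of the elements of level 15, pattern J -/
structure Enum (e : ℕ → ℕ → P) (A : Finset P) (cvL : List ℕ) (K : ℕ) (z : ℕ → P) : Prop where
  le : K ≤ 4
  ge : 3 ≤ K
  inj : ∀ a < K, ∀ b < K, z a = z b → a = b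
  msk : ∀ k < K, Mk e (z k) (cvL.getD (30 + k) 0)
  mem : ∀ x, x ∈ A ↔ ∃ k < K, z k = x

include D C hgt ht in
/-- the code -/
lemma Enum.cod {A : Finset P} {cvL lvL : List ℕ} {K : ℕ} {z : ℕ → P} (E : Enum e A cvL K z)
    (h1 : ∀ a < 30, cvL.getD a 0 = La7cv.getD a 0) (h2 : ∀ a < 30, lvL.getD a 0 = La7lv.getD a 0)
    (h4 : ∀ k < 4, lvL.getD (30 + k) 0 = 15) (hx : ∀ k < 4, cvL.getD (30 + k) 0 < 2 ^ 30) :
    Cod (30 + K) (fun a => cvL.getD a 0) (fun a => lvL.getD a 0) (cz e z) :=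
  La7_ext D C hgt ht (cx := fun k => cvL.getD (30 + k) 0) h1 h2 (fun _ _ => rfl)
    (fun k hk => h4 k (lt_of_lt_of_le hk E.le)) (fun k hk => hx k (lt_of_lt_of_le hk E.le))
    E.inj E.msk

lemma cz_lt (z : ℕ → P) {a : ℕ} (ha : a < 30) : cz e z a = ce e a := if_pos ha

lemma cz_add (z : ℕ → P) (k : ℕ) : cz e z (30 + k) = z k := by
  unfold cz
  rw [if_neg (by omega), Nat.add_sub_cancel_left]

include D C hgt ht in
/-- the thresholds -/
lemma Enum.tha {A : Finset P} {cvL lvL thL : List ℕ} {K : ℕ} {z : ℕ → P} (E : Enum e A cvL K z)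
    (hcod : Cod (30 + K) (fun a => cvL.getD a 0) (fun a => lvL.getD a 0) (cz e z))
    (hx : ∀ k < 4, cvL.getD (30 + k) 0 < 2 ^ 30)
    (hy : thL.getD 25 0 = 4 ∧ thL.getD 26 0 = 3 ∧ thL.getD 27 0 = 2 ∧ thL.getD 28 0 = 1 ∧
      thL.getD 29 0 = 0)
    (hk : ∀ k < 4, (cvL.getD (30 + k) 0 = 67108864 → thL.getD (30 + k) 0 = 4) ∧
      (cvL.getD (30 + k) 0 = 201326592 → thL.getD (30 + k) 0 = 3) ∧
      (cvL.getD (30 + k) 0 = 402653184 → thL.getD (30 + k) 0 = 2) ∧
      (cvL.getD (30 + k) 0 = 805306368 → thL.getD (30 + k) 0 = 1)) :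
    ThA e A (thI (30 + K) (cz e z) (fun a => thL.getD a 0)) := by
  have hth : ∀ a < 30, thI (30 + K) (cz e z) (fun a => thL.getD a 0) (ce e a) =
      thL.getD a 0 := by
    intro a ha
    have h1 := thI_c hcod (fun a => thL.getD a 0) (a := a) (by omega)
    rwa [cz_lt z ha] at h1
  have hth' : ∀ k < K, thI (30 + K) (cz e z) (fun a => thL.getD a 0) (z k) =
      thL.getD (30 + k) 0 := by
    intro k hk
    have h1 := thI_c hcod (fun a => thL.getD a 0) (a := 30 + k) (by omega)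
    rwa [cz_add] at h1
  have key : ∀ x ∈ A, ∀ m, m < 2 ^ 30 → Mk e x m → ∃ k < 4, cvL.getD (30 + k) 0 = m ∧
      thI (30 + K) (cz e z) (fun a => thL.getD a 0) x = thL.getD (30 + k) 0 := by
    intro x hxA m hm hmk
    obtain ⟨k, hk, rfl⟩ := (E.mem x).mp hxA
    have hk4 : k < 4 := lt_of_lt_of_le hk E.le
    exact ⟨k, hk4, Mk_mask D C hgt ht (E.msk k hk) hmk (hx k hk4) hm, hth' k hk⟩
  refine ⟨?_, ?_, ?_, ?_, ?_, ?_, ?_, ?_, ?_⟩
  · rw [hth 25 (by norm_num)]; exact hy.1
  · rw [hth 26 (by norm_num)]; exact hy.2.1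
  · rw [hth 27 (by norm_num)]; exact hy.2.2.1
  · rw [hth 28 (by norm_num)]; exact hy.2.2.2.1
  · rw [hth 29 (by norm_num)]; exact hy.2.2.2.2
  · intro x hxA hmk
    obtain ⟨k, hk4, h1, h2⟩ := key x hxA _ (by norm_num) hmk
    rw [h2, (hk k hk4).1 h1]
  · intro x hxA hmk
    obtain ⟨k, hk4, h1, h2⟩ := key x hxA _ (by norm_num) hmk
    rw [h2, (hk k hk4).2.1 h1]
  · intro x hxA hmk
    obtain ⟨k, hk4, h1, h2⟩ := key x hxA _ (by norm_num) hmk
    rw [h2, (hk k hk4).2.2.1 h1]
  · intro x hxA hmk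
    obtain ⟨k, hk4, h1, h2⟩ := key x hxA _ (by norm_num) hmk
    rw [h2, (hk k hk4).2.2.2 h1]

include D C hgt ht in
/-- the enumeration for the pattern J; the anchor has the number 2 -/
lemma JA.enum {A : Finset P} {c : P} (J : JA e A c) :
    ∃ K z, Enum e A Jacv K z ∧ z 2 = c := by
  obtain ⟨p, hpA, hp⟩ := J.hp
  obtain ⟨q, hqA, hq⟩ := J.h23
  have hpq : p ≠ q := Mk.ne D C hgt ht hp hq (b := 26) (by norm_num) (by decide) (by decide)
  have hpc : p ≠ c := Mk.ne D C hgt ht hp J.hc (b := 26) (by norm_num) (by decide) (by decide)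
  have hqc : q ≠ c := Mk.ne D C hgt ht hq J.hc (b := 27) (by norm_num) (by decide) (by decide)
  by_cases hd : ∃ d ∈ A, Mk e d 201326592
  · obtain ⟨d, hdA, hd⟩ := hd
    have hdp : d ≠ p := Mk.ne D C hgt ht hd hp (b := 27) (by norm_num) (by decide) (by decide)
    have hdq : d ≠ q := Mk.ne D C hgt ht hd hq (b := 26) (by norm_num) (by decide) (by decide)
    have hdc : d ≠ c := Mk.ne D C hgt ht hd J.hc (b := 26) (by norm_num) (by decide) (by decide)
    refine ⟨4, four p q c d, ⟨le_rfl, by norm_num,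
      four_inj le_rfl hpq hpc hqc fun _ => ⟨hdp.symm, hdq.symm, hdc.symm⟩, ?_, ?_⟩, rfl⟩
    · intro k hk
      have hk' : k = 0 ∨ k = 1 ∨ k = 2 ∨ k = 3 := by omega
      rcases hk' with rfl | rfl | rfl | rfl
      · exact hp
      · exact hq
      · exact J.hc
      · exact hd
    · intro x
      constructor
      · intro hx
        rcases J.all x hx with h | h | h | h
        · exact ⟨0, by norm_num, J.uniq p hpA x hx _ hp h⟩
        · exact ⟨3, by norm_num, J.uniq d hdA x hx _ hd h⟩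
        · exact ⟨1, by norm_num, J.uniq q hqA x hx _ hq h⟩
        · exact ⟨2, by norm_num, J.uniq c J.cA x hx _ J.hc h⟩
      · rintro ⟨k, hk, rfl⟩
        have hk' : k = 0 ∨ k = 1 ∨ k = 2 ∨ k = 3 := by omega
        rcases hk' with rfl | rfl | rfl | rfl
        · exact hpA
        · exact hqA
        · exact J.cA
        · exact hdA
  · refine ⟨3, four p q c c, ⟨by norm_num, le_rfl,
      four_inj (by norm_num) hpq hpc hqc fun h => absurd h (by norm_num), ?_, ?_⟩, rfl⟩
    · intro k hk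
      have hk' : k = 0 ∨ k = 1 ∨ k = 2 := by omega
      rcases hk' with rfl | rfl | rfl
      · exact hp
      · exact hq
      · exact J.hc
    · intro x
      constructor
      · intro hx
        rcases J.all x hx with h | h | h | h
        · exact ⟨0, by norm_num, J.uniq p hpA x hx _ hp h⟩
        · exact absurd ⟨x, hx, h⟩ hd
        · exact ⟨1, by norm_num, J.uniq q hqA x hx _ hq h⟩
        · exact ⟨2, by norm_num, J.uniq c J.cA x hx _ J.hc h⟩
      · rintro ⟨k, hk, rfl⟩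
        have hk' : k = 0 ∨ k = 1 ∨ k = 2 := by omega
        rcases hk' with rfl | rfl | rfl
        · exact hpA
        · exact hqA
        · exact J.cA

include D C hgt ht in
/-- **(F1)** local data at the window 7 up to the energy 50, pattern J -/
theorem JA.loc {A : Finset P} {c : P} (J : JA e A c) :
    ∃ θ : P → ℕ, LocL 7 2 51 (lowPart 14 t ∪ A) θ (fun x => x = ce e 29) ∧ ThA e A θ := by
  obtain ⟨K, z, E, -⟩ := J.enum D C hgt ht
  have hK := E.le
  have hcod := E.cod D C hgt ht (lvL := Jalv) (by decide +kernel) (by decide +kernel)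
    (by decide +kernel) (by decide +kernel)
  have hS := La7_mem D C (z := z) E.mem
  have hl : LocL 7 2 51 (lowPart 14 t ∪ A) (thI (30 + K) (cz e z) (fun a => Jath.getD a 0))
      (fun x => x = cz e z 29) :=
    cod_locL' hcod Ja_us (by omega) Ja_th (by omega) hS JaL_pol Ja_low
      (fun x hx => hx) Ja_bm
      (lt_of_lt_of_le (by norm_num) (Nat.pow_le_pow_right (by norm_num)
        (show 30 ≤ 30 + K by omega)))
  rw [cz_29] at hl
  exact ⟨_, hl, E.tha D C hgt ht hcod (by decide +kernel) (by decide +kernel)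
    (by decide +kernel)⟩

end

end Pool.Agent.GaussPoset.W7
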