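import Pool.Agent.W_448w7_h36.JbC

/-!
The pattern J-prime: window 9, the up-sets which contain an element below the first two cells, order two up to the energy 1.
-/

namespace Pool.Agent.GaussPoset.W7

open Cl Dd Sg

/-- the up-sets: code, `ℓ`, `M`, exponent, coefficient -/
def JbM : List (ℕ × ℕ × ℕ × ℕ × ℕ) := [(17179869183, 16, 18, 331, 0), (17146314751, 16, 17, 304, 0), (16106127359, 16, 17, 304, 0), (16072572927, 16, 16, 278, 0), (15032385535, 16, 17, 304, 0), (14998831103, 16, 16, 278, 0), (14898167807, 16, 16, 278, 0), (14864613375, 16, 15, 253, 0), (13958643711, 16, 16, 278, 0), (13925089279, 16, 15, 253, 0), (13891534847, 16, 15, 253, 0), (13857980415, 16, 14, 229, 0), (13855883263, 16, 13, 206, 0), (13824425983, 16, 15, 253, 0), (13790871551, 16, 14, 229, 0), (13757317119, 16, 14, 229, 0), (13753122815, 16, 13, 206, 0), (13723762687, 16, 13, 206, 0), (13721665535, 16, 12, 184, 0), (13719568383, 16, 12, 184, 0), (13717471231, 16, 11, 163, 0), (13717209087, 16, 10, 143, 0), (13717176319, 16,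 9, 124, 0), (8589934591, 16, 17, 304, 0), (8556380159, 16, 16, 278, 0), (7516192767, 16, 16, 278, 0), (7482638335, 16, 15, 253, 0), (6442450943, 16, 16, 278, 0), (6408896511, 16, 15, 253, 0), (6308233215, 16, 15, 253, 0), (6274678783, 16, 14, 229, 0), (5368709119, 16, 15, 253, 0), (5335154687, 16, 14, 229, 0), (5301600255, 16, 14, 229, 0), (5268045823, 16, 13, 206, 0), (5265948671, 16, 12, 184, 0), (5234491391, 16, 14, 229, 0), (5200936959, 16, 13, 206, 0), (5167382527, 16, 13, 206, 0), (5163188223, 16, 12, 184, 0), (5133828095, 16, 12, 184, 0), (5131730943, 16, 11, 163, 0), (5129633791, 16, 11, 163, 0), (5127536639, 16, 10, 143, 0), (5127274495, 16, 9, 124, 0), (5127241727, 16, 8, 106, 0)]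

theorem JbM_pol1 : polF1 34 (2 ^ 104) 18 Jbus 9 JbM = true := by
  decide +kernel

theorem JbM_pol2 : polF2 34 (2 ^ 104) 18 Jbus JbM = true := by
  decide +kernel

theorem JbM_pol : polC 34 (2 ^ 104) 18 Jbus 9 JbM = true :=
  polC_of_fast JbM_pol1 JbM_pol2

theorem Jb_low9 : lowC 34 18 9 1 (fun a => Jblv.getD a 0) Jbus 5127241727 JbM = true := by
  decide +kernel

end Pool.Agent.GaussPoset.W7
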