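import Pool.Agent.W_448w7_h36.JbC
import Pool.Agent.W_448w7_h36.NegA

/-!
The pattern J-prime: the pole at window 7, energy 31.
-/

namespace Pool.Agent.GaussPoset.W7

open Cl Dd Sg

theorem JbR_neg1 : negF1 34 (2 ^ 104) 18 Jbus 7 (17179869183, 16, 18, 328, 1) = true := by
  decide +kernel

theorem JbR_neg2 : negF2 34 (2 ^ 104) 18 Jbus (17179869183, 16, 18, 328, 1) = true := by
  decide +kernel

theorem JbR_neg : negC 34 (2 ^ 104) 18 Jbus 7 (17179869183, 16, 18, 328, 1) = true :=
  negC_of_fast JbR_neg1 JbR_neg2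

theorem JbR_nnum : numC 34 18 7 31 (fun a => Jblv.getD a 0) (17179869183, 16, 18, 328, 1) = true := by
  decide +kernel

theorem JbR_nmem : (17179869183 : ℕ) ∈ Jbus := by decide +kernel

theorem JbR_nsgn : sgn 16 18 7 = -1 := by
  decide +kernel

end Pool.Agent.GaussPoset.W7
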