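import Pool.Agent.W_448w7_h36.LaB
import Pool.Agent.W_448w7_h36.JbP
import Pool.Agent.W_448w7_h36.JbQ
import Pool.Agent.W_448w7_h36.JbR

/-!
The strip `La7` with elements of level 15, pattern J-prime: local data and the pole at window 7,
window 9 (MP_448cb3_co, S7, `j = 14`).
-/

namespace Pool.Agent.GaussPoset.W7

set_option linter.unusedSectionVars false
set_option synthInstance.maxSize 1000

open Polynomial Finset Cl Dd Wd Win Sg

universe u

variable {P : Type u} [Fintype P] [PartialOrder P] [DecidableEq P]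
variable {r : ℕ} {t : P} {lo hi : ℕ → ℕ} {e : ℕ → ℕ → P}

lemma Jb_umh : ∀ a < 34, Jbum.getD a 0 =
    Nat.lor (2 ^ a) (orM (fun a => Jbum.getD a 0) 34 (Jbcv.getD a 0)) := by decide +kernel

lemma Jb_um32 : Jbum.getD 32 0 = 5127241727 := by decide +kernel

/-- the value of a complete coded set at the window 7 -/
theorem full_plZ {n : ℕ} {cv lv : ℕ → ℕ} {c : ℕ → P} (C : Cod n cv lv c) {n0 : ℕ} {J : ℕ}
    (hJn : J = 2 ^ n - 1) {S : Finset P} (hS : ∀ y, y ∈ S ↔ ∃ a < n, c a = y) {v : ℤ}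
    (hv : (∀ n' < n0, (1 + X : ℤ[X]) ^ 2 ∣ Z {y : P // y ∈ toS n c J} 7 n') ∧
      ∃ s : ℤ[X], Z {y : P // y ∈ toS n c J} 7 n0 = (1 + X) * s ∧ s.eval (-1) = -v)
    (h7 : ((range n).filter (fun a => lv a < 7)).card = 7)
    (h8 : ((range n).filter (fun a => lv a = 7)).card = 2)
    {f : Polynomial (PowerSeries ℤ)} (hf : ∀ n, exq n f = Z {y : P // y ∈ S} 7 n) :
    Pl n0 2 v f := by
  classical
  have hbits : ∀ a < n, J.testBit a = true := by
    intro a ha
    rw [hJn]
    rw [Nat.testBit_two_pow_sub_one]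
    simpa using ha
  have hSe : toS n c J = S := by
    ext y
    rw [mem_toS, hS]
    constructor
    · rintro ⟨a, ha, -, h1⟩
      exact ⟨a, ha, h1⟩
    · rintro ⟨a, ha, h1⟩
      exact ⟨a, ha, hbits a ha, h1⟩
  rw [hSe] at hv
  obtain ⟨h11, s, h12, h13⟩ := hv
  have hbelow : below {y : P // y ∈ S} 7 = 7 := by
    unfold below
    rw [cod_count C hS (fun l => l < 7)]
    exact h7
  have hlv7 : (GaussPoset.lv {y : P // y ∈ S} 7).card = 2 := by
    unfold GaussPoset.lv
    rw [cod_count C hS (fun l => l = 7)]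
    exact h8
  have h0 : exq 0 f = X ^ 7 * (1 + X) ^ 2 := by
    rw [hf, Z_zero, hbelow, hlv7]
  refine ⟨fun m hm => ?_, by norm_num, X ^ 7, s, by rw [h0, mul_comm], ?_, ?_, ?_⟩
  · rw [hf]
    exact h11 m hm
  · rw [eval_pow, eval_X]
    norm_num
  · rw [hf, h12]
    simp
  · rw [h13, eval_pow, eval_X]
    norm_num

section

variable (D : WordD 14 7 wa7 lo hi) (C : Cp.Comp 14 t lo hi e) (hgt : GoodTo P r 14)
  (ht : lev t = 0)

include D C hgt ht in
/-- the enumeration for the pattern J-prime -/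
lemma JB.enum {A : Finset P} {c c' : P} (J : JB e A c c') :
    ∃ z, Enum e A Jbcv 4 z ∧ z 2 = c ∧ z 3 = c' := by
  obtain ⟨p, hpA, hp⟩ := J.hp
  obtain ⟨d, hdA, hd⟩ := J.h12
  have hdp : p ≠ d := (Mk.ne D C hgt ht hd hp (b := 27) (by norm_num) (by decide)
    (by decide)).symm
  have hpc : p ≠ c := Mk.ne D C hgt ht hp J.hc (b := 26) (by norm_num) (by decide) (by decide)
  have hpc' : p ≠ c' := Mk.ne D C hgt ht hp J.hc' (b := 26) (by norm_num) (by decide) (by decide)
  have hdc : d ≠ c := Mk.ne D C hgt ht hd J.hc (b := 26) (by norm_num) (by decide) (by decide)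
  have hdc' : d ≠ c' := Mk.ne D C hgt ht hd J.hc' (b := 26) (by norm_num) (by decide) (by decide)
  refine ⟨four p d c c', ⟨le_rfl, by norm_num,
    four_inj le_rfl hdp hpc hdc fun _ => ⟨hpc', hdc', J.ne⟩, ?_, ?_⟩, rfl, rfl⟩
  · intro k hk
    have hk' : k = 0 ∨ k = 1 ∨ k = 2 ∨ k = 3 := by omega
    rcases hk' with rfl | rfl | rfl | rfl
    · exact hp
    · exact hd
    · exact J.hc
    · exact J.hc'
  · intro x
    constructor
    · intro hx
      rcases J.all x hx with h | h | h | h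
      · exact ⟨0, by norm_num, J.uniq p hpA x hx _ (Or.inl rfl) hp h⟩
      · exact ⟨1, by norm_num, J.uniq d hdA x hx _ (Or.inr rfl) hd h⟩
      · exact ⟨2, by norm_num, h.symm⟩
      · exact ⟨3, by norm_num, h.symm⟩
    · rintro ⟨k, hk, rfl⟩
      have hk' : k = 0 ∨ k = 1 ∨ k = 2 ∨ k = 3 := by omega
      rcases hk' with rfl | rfl | rfl | rfl
      · exact hpA
      · exact hdA
      · exact J.cA
      · exact J.cA'

/-- the pattern is symmetric in the two elements below the first two cells -/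
lemma JB.swap {A : Finset P} {c c' : P} (J : JB e A c c') : JB e A c' c where
  cA := J.cA'
  cA' := J.cA
  ne := J.ne.symm
  hc := J.hc'
  hc' := J.hc
  hp := J.hp
  h12 := J.h12
  all := fun x hx => by
    rcases J.all x hx with h | h | h | h
    · exact Or.inl h
    · exact Or.inr (Or.inl h)
    · exact Or.inr (Or.inr (Or.inr h))
    · exact Or.inr (Or.inr (Or.inl h))
  uniq := J.uniq

include D C hgt ht in
/-- **(F1')** local data at the window 7 and the pole, pattern J-prime -/
theorem JB.loc {A : Finset P} {c c' : P} (J : JB e A c c') :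
    ∃ θ : P → ℕ, LocL 7 2 31 (lowPart 14 t ∪ A) θ (fun x => x = ce e 29) ∧ ThA e A θ ∧
      ∀ f : Polynomial (PowerSeries ℤ),
        (∀ n, exq n f = Z {y : P // y ∈ lowPart 14 t ∪ A} 7 n) → Pl 31 2 (-1) f := by
  obtain ⟨z, E, -, -⟩ := J.enum D C hgt ht
  have hcod := E.cod D C hgt ht (lvL := Jblv) (by decide +kernel) (by decide +kernel)
    (by decide +kernel) (by decide +kernel)
  have hS := La7_mem D C (z := z) E.mem
  have hl : LocL 7 2 31 (lowPart 14 t ∪ A) (thI (30 + 4) (cz e z) (fun a => Jbth.getD a 0))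
      (fun x => x = cz e z 29) :=
    cod_locL' hcod Jb_us (by norm_num) Jb_th (by norm_num) hS JbL_pol Jb_low
      (fun x hx => hx) Jb_bm (by norm_num)
  rw [cz_29] at hl
  refine ⟨_, hl, E.tha D C hgt ht hcod (by decide +kernel) (by decide +kernel)
    (by decide +kernel), fun f hf => ?_⟩
  have hval := cod_valN hcod Jb_us (by norm_num) JbR_neg JbR_nmem (by norm_num) JbR_nnum
  obtain ⟨v1, s, v2, v3⟩ := hval
  refine full_plZ hcod (J := 17179869183) (by norm_num) hS ⟨v1, s, v2, ?_⟩ (by decide +kernel)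
    (by decide +kernel) hf
  rw [v3]
  simp only [JbR_nsgn]
  norm_num

include D C hgt ht in
/-- **(F2)** the up-sets which contain `c` or `c'`, window 9, pattern J-prime -/
theorem JB.cls {A : Finset P} {c c' : P} (J : JB e A c c') (L : Finset P)
    (hL : ∀ x ∈ L, x ∈ lowPart 14 t ∪ A) (hup : ∀ x ∈ L, ∀ y, x ≤ y → y ∈ L)
    (hc : c ∈ L ∨ c' ∈ L) : ∀ n < 2, (1 + X : ℤ[X]) ^ 2 ∣ Z {x : P // x ∈ L} 9 n := by
  have key : ∀ {c c' : P}, JB e A c c' → c ∈ L →
      ∀ n < 2, (1 + X : ℤ[X]) ^ 2 ∣ Z {x : P // x ∈ L} 9 n := by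
    intro c c' J hc n hn
    obtain ⟨z, E, hz, -⟩ := J.enum D C hgt ht
    have hcod := E.cod D C hgt ht (lvL := Jblv) (by decide +kernel) (by decide +kernel)
      (by decide +kernel) (by decide +kernel)
    have hS := La7_mem D C (z := z) E.mem
    have h32 : cz e z 32 = c := by
      have := cz_add (e := e) z 2
      rw [hz] at this
      exact this
    refine cod_clean hcod Jb_us (by norm_num) JbM_pol Jb_low9 (fun x hx => hx)
      (fun x hx => (hS x).mp (hL x hx)) hup (by norm_num) ?_ n (by omega)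
    intro a ha hbit
    refine hup c hc _ ?_
    have h1 := cod_toS_above hcod (N := 34) (by norm_num) Jb_us.cv Jb_umh (a := 32) (by norm_num)
      (cz e z a)
    simp only [Jb_um32, h32] at h1
    rw [← h1, mem_toS]
    exact ⟨a, ha, hbit, rfl⟩
  rcases hc with hc | hc
  · exact key J hc
  · exact key J.swap hc

end

end Pool.Agent.GaussPoset.W7
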