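import Pool.Agent.W_448w7_h36.NegA
import Pool.Agent.W_448s14_h94.SgH

/-!
The elements above an element of level 15 below the first two cells of the strip `La7`: the pole at
the window 9 (MP_448cb3_co, S7, `j = 14`).
-/

namespace Pool.Agent.GaussPoset.W7

set_option linter.unusedSectionVars false
set_option synthInstance.maxSize 1000

open Polynomial Finset Cl Dd Wd Win Sg

universe u

variable {P : Type u} [Fintype P] [PartialOrder P] [DecidableEq P]
variable {r : ℕ} {t : P} {lo hi : ℕ → ℕ} {e : ℕ → ℕ → P}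

theorem Pa9_neg1 : negF1 32 (2 ^ 100) 8 Paus 9 (1906016255, 16, 8, 107, 1) = true := by
  decide +kernel

theorem Pa9_neg2 : negF2 32 (2 ^ 100) 8 Paus (1906016255, 16, 8, 107, 1) = true := by
  decide +kernel

theorem Pa9_neg : negC 32 (2 ^ 100) 8 Paus 9 (1906016255, 16, 8, 107, 1) = true :=
  negC_of_fast Pa9_neg1 Pa9_neg2

theorem Pa9_num : numC 32 8 9 2 (fun a => Palv.getD a 0) (1906016255, 16, 8, 107, 1) = true := by
  decide +kernel

theorem Pa9_mem : (1906016255 : ℕ) ∈ Paus := by decide +kernel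

theorem Pa9_sgn : sgn 16 8 9 = -1 := by
  decide +kernel

lemma Pa_umh : ∀ a < 32, Paum.getD a 0 =
    Nat.lor (2 ^ a) (orM (fun a => Paum.getD a 0) 32 (Pacv.getD a 0)) := by decide +kernel

lemma Pa_um30 : Paum.getD 30 0 = 1906016255 := by decide +kernel

/-- **(F2)** the pole of the elements above an anchor, window 9 -/
theorem ld_of_mk (D : WordD 14 7 wa7 lo hi) (C : Cp.Comp 14 t lo hi e) (hgt : GoodTo P r 14)
    (ht : lev t = 0) {c : P} (h : Mk e c 805306368) (L : Finset P) (hL : ∀ x, x ∈ L ↔ c ≤ x) :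
    (1 + X : ℤ[X]) ^ 2 ∣ Z {x : P // x ∈ L} 9 2 + X ^ 13 * (1 + X) := by
  have g3 : ∀ k < 1, Pacv.getD (30 + k) 0 = 805306368 := by decide +kernel
  have g4 : ∀ k < 1, Palv.getD (30 + k) 0 = 15 := by decide +kernel
  have hcod := La7_ext D C hgt ht (K := 1) (z := fun _ => c) (cx := fun _ => 805306368)
    (cvL := Pacv) (lvL := Palv) (by decide +kernel) (by decide +kernel) g3 g4
    (fun _ _ => by norm_num) (fun a ha b hb _ => by omega) (fun _ _ => h)
  have h30 : cz e (fun _ => c) 30 = c := rfl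
  have hab : ∀ x, x ∈ toS (30 + 1) (cz e (fun _ => c)) 1906016255 ↔ c ≤ x := by
    intro x
    rw [mem_toS]
    constructor
    · rintro ⟨b, hb, hbit, rfl⟩
      rw [← Pa_um30] at hbit
      have := (hcod.le_iff (N := 32) (by norm_num) Pa_us.cv Pa_umh (a := 30) (by norm_num)
        hb).mpr hbit
      rwa [h30] at this
    · intro hx
      obtain ⟨b, hb, rfl⟩ := cod_above hcod (a := 30) (by norm_num) (y := x) (by rwa [h30])
      refine ⟨b, hb, ?_, rfl⟩
      rw [← Pa_um30]
      exact (hcod.le_iff (N := 32) (by norm_num) Pa_us.cv Pa_umh (a := 30) (by norm_num)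
        hb).mp (by rwa [h30])
  obtain ⟨-, s, v2, v3⟩ := cod_valN hcod Pa_us (by norm_num) Pa9_neg Pa9_mem (by norm_num)
    Pa9_num
  have hLe : L = toS (30 + 1) (cz e (fun _ => c)) 1906016255 := by
    ext x
    rw [hL, hab]
  have h1 : ((s + X ^ 13 : ℤ[X])).IsRoot (-1) := by
    show (s + X ^ 13).eval (-1) = 0
    rw [eval_add, v3, eval_pow, eval_X]
    simp only [Pa9_sgn]
    norm_num
  have h2 := Polynomial.dvd_iff_isRoot.mpr h1
  rw [map_neg, map_one, sub_neg_eq_add, add_comm X] at h2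
  have h3 : (1 + X : ℤ[X]) * s + X ^ 13 * (1 + X) = (1 + X) * (s + X ^ 13) := by ring
  rw [hLe, v2, h3, pow_two]
  exact mul_dvd_mul_left _ h2

end Pool.Agent.GaussPoset.W7
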