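import Pool.Agent.W_448w7_h36.LaA

/-!
The strip `La7` with elements of level 15, pattern J, window 9 (MP_448cb3_co, S7, `j = 14`).
-/

namespace Pool.Agent.GaussPoset.W7

set_option linter.unusedSectionVars false
set_option synthInstance.maxSize 1000

open Polynomial Finset Cl Dd Wd Win Sg

universe u

variable {P : Type u} [Fintype P] [PartialOrder P] [DecidableEq P]
variable {r : ℕ} {t : P} {lo hi : ℕ → ℕ} {e : ℕ → ℕ → P}

lemma Ja_umh : ∀ a < 34, Jaum.getD a 0 =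
    Nat.lor (2 ^ a) (orM (fun a => Jaum.getD a 0) 34 (Jacv.getD a 0)) := by decide +kernel

lemma Ja_um32 : Jaum.getD 32 0 = 5127241727 := by decide +kernel

/-- the elements above a cell -/
lemma cod_toS_above {n N : ℕ} {cv lv um : ℕ → ℕ} {c : ℕ → P} (C : Cod n cv lv c) (hn : n ≤ N)
    (hcv : ∀ a < N, cv a < 2 ^ a) (hum : ∀ a < N, um a = Nat.lor (2 ^ a) (orM um N (cv a)))
    {a : ℕ} (ha : a < n) (x : P) : x ∈ toS n c (um a) ↔ c a ≤ x := by
  rw [mem_toS]
  constructor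
  · rintro ⟨b, hb, hbit, rfl⟩
    exact (C.le_iff hn hcv hum ha hb).mpr hbit
  · intro h
    obtain ⟨b, hb, rfl⟩ := cod_above C ha h
    exact ⟨b, hb, (C.le_iff hn hcv hum ha hb).mp h, rfl⟩

/-- a sum with a pole of value one -/
lemma dvd_of_val {s : ℤ[X]} (h : s.eval (-1) = 1) :
    (1 + X : ℤ[X]) ^ 2 ∣ (1 + X) * s + X ^ 13 * (1 + X) := by
  have h1 : ((s + X ^ 13 : ℤ[X])).IsRoot (-1) := by
    show (s + X ^ 13).eval (-1) = 0
    rw [eval_add, h, eval_pow, eval_X]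
    norm_num
  have h2 := Polynomial.dvd_iff_isRoot.mpr h1
  rw [map_neg, map_one, sub_neg_eq_add, add_comm X] at h2
  have h3 : (1 + X : ℤ[X]) * s + X ^ 13 * (1 + X) = (1 + X) * (s + X ^ 13) := by ring
  rw [h3, pow_two]
  exact mul_dvd_mul_left _ h2

section

variable (D : WordD 14 7 wa7 lo hi) (C : Cp.Comp 14 t lo hi e) (hgt : GoodTo P r 14)
  (ht : lev t = 0)

include D C hgt ht in
/-- **(F2)** the up-sets which contain the anchor, window 9, pattern J -/
theorem JA.cls {A : Finset P} {c : P} (J : JA e A c) :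
    (∀ L : Finset P, (∀ x ∈ L, x ∈ lowPart 14 t ∪ A) → (∀ x ∈ L, ∀ y, x ≤ y → y ∈ L) → c ∈ L →
      (∀ n < 2, (1 + X : ℤ[X]) ^ 2 ∣ Z {x : P // x ∈ L} 9 n) ∧
      ((∃ d ∈ A, d ≠ c ∧ d ∈ L) →
        ∀ n < 12, (1 + X : ℤ[X]) ^ 2 ∣ Z {x : P // x ∈ L} 9 n)) ∧
    (∀ L : Finset P, (∀ x, x ∈ L ↔ c ≤ x) →
      (1 + X : ℤ[X]) ^ 2 ∣ Z {x : P // x ∈ L} 9 2 + X ^ 13 * (1 + X)) := by
  obtain ⟨K, z, E, hz⟩ := J.enum D C hgt ht
  have hK := E.le
  have hK3 := E.ge
  have hcod := E.cod D C hgt ht (lvL := Jalv) (by decide +kernel) (by decide +kernel)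
    (by decide +kernel) (by decide +kernel)
  have hS := La7_mem D C (z := z) E.mem
  have h32 : cz e z 32 = c := by
    have := cz_add (e := e) z 2
    rw [hz] at this
    exact this
  have hab : ∀ x, x ∈ toS (30 + K) (cz e z) 5127241727 ↔ c ≤ x := by
    intro x
    have h1 := cod_toS_above hcod (N := 34) (by omega) Ja_us.cv Ja_umh (a := 32) (by omega) x
    simp only [Ja_um32, h32] at h1
    exact h1
  have hbn : 5127241727 < 2 ^ (30 + K) :=
    lt_of_lt_of_le (by norm_num) (Nat.pow_le_pow_right (by norm_num) (show 33 ≤ 30 + K by omega))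
  have hval := cod_valN hcod Ja_us (by omega) JaR_neg JaR_nmem hbn JaR_nnum
  obtain ⟨v1, s, v2, v3⟩ := hval
  have hclean : ∀ L : Finset P, (∀ x ∈ L, x ∈ lowPart 14 t ∪ A) →
      (∀ x ∈ L, ∀ y, x ≤ y → y ∈ L) → c ∈ L → L ≠ toS (30 + K) (cz e z) 5127241727 →
      ∀ n' ≤ 11, (1 + X : ℤ[X]) ^ 2 ∣ Z {x : P // x ∈ L} 9 n' := by
    intro L hL hup hc hne
    refine cod_clean_ne hcod Ja_us (by omega) JaM_pol Ja_num9 Ja_all9
      (fun x hx => (hS x).mp (hL x hx)) hup hbn ?_ hne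
    intro a ha hbit
    refine hup c hc _ ?_
    rw [← hab, mem_toS]
    exact ⟨a, ha, hbit, rfl⟩
  refine ⟨fun L hL hup hc => ⟨fun n hn => ?_, ?_⟩, fun L hL => ?_⟩
  · by_cases hLe : L = toS (30 + K) (cz e z) 5127241727
    · rw [hLe]
      exact v1 n hn
    · exact hclean L hL hup hc hLe n (by omega)
  · rintro ⟨d, hdA, hdc, hdL⟩ n hn
    refine hclean L hL hup hc ?_ n (by omega)
    rintro rfl
    rw [hab] at hdL
    have h1 : c < d := lt_of_le_of_ne hdL (Ne.symm hdc)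
    have h2 := lev_strictAnti h1
    obtain ⟨k, hk, hk'⟩ := (E.mem d).mp hdA
    have h3 : lev d = 15 := by
      rw [← hk']
      exact (E.msk k hk).1
    have h4 : lev c = 15 := J.hc.1
    omega
  · have hLe : L = toS (30 + K) (cz e z) 5127241727 := by
      ext x
      rw [hL, hab]
    rw [hLe, v2]
    refine dvd_of_val ?_
    rw [v3]
    simp only [JaR_nsgn]
    norm_num

end

end Pool.Agent.GaussPoset.W7
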